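import Pool.Agent.Run7.h505.RV.Q

/-!
# Group codes of `p`-groups that are products of an abelian normal and a small subgroup

Let `F` be a finite field of characteristic `p` with more than two elements. A left ideal is a
linear space `C` of functions on a finite group `G` such that `c ∈ C` implies that `x ↦ c (z x)` is
in `C` for every `z`. We consider finite `p`-groups `G = A H`, where `A` is an abelian normal
subgroup and `H` a subgroup of order at most `s`, for example all semidirect products of an abelian
`p`-group with a `p`-group of order at most `s`. A family of such groups has left ideals with rate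
and relative minimum distance bounded below if and only if the orders of the abelianizations
`G / [G, G]` are bounded. For every prime `p` there are arbitrarily large such groups with `s = p`
and `|G / [G, G]| ≤ p²`.

Proof of existence. The conjugates of `H` by `1` and by the generators of `A` generate a subgroup of
bounded index. The code consists of the words `w` with `w b` fixed by the right translations by the
elements of `H`, where `b` is random. Such a word `w` is in the code with probability at most
`q^(c - c' r)`, where `r` is the dimension of the space spanned by the translates of `w` by the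
elements of `A`. It has to be shown that there are at most `q^(ε r)` words of small weight with
dimension `r`, up to left translation. Let `I` be the ideal of polynomials in `d` variables that
annihilate `w`, and `Δ` the set of its standard monomials, `|Δ| ≤ r`. The dyadic shape of `Δ` can be
chosen in `2^((log r + 2)^d)` ways. If `u` is the difference of two words with the same shape then
the product of their ideals annihilates `u`, so all standard monomials of `u` are in a set `E` of at
most `4^d r` exponents which depends on the shape only, and `u` is determined by its values at the
places of `E` (in every coset of `A`). For a suitable left translate of `w` most of these values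
are zero.
-/

open Module

namespace Run7.h505.Old.AbelianBySmallGroupCodes

theorem result (F : Type) [Field F] [Fintype F] [DecidableEq F] (_hq : 2 < Fintype.card F)
    (p : ℕ) [Fact p.Prime] [CharP F p] :
    (∀ (s : ℕ) (ι : Type) (G : ι → Type) [∀ i, Group (G i)] [∀ i, Fintype (G i)],
      (∀ i, IsPGroup p (G i)) →
      (∀ i, ∃ A H : Subgroup (G i), A.Normal ∧ (∀ a ∈ A, ∀ b ∈ A, a * b = b * a) ∧
        A ⊔ H = ⊤ ∧ Nat.card H ≤ s) →
      ((∃ r e : ℝ, 0 < r ∧ 0 < e ∧ ∀ i, ∃ C : Submodule F (G i → F),
        (∀ c ∈ C, ∀ z : G i, (fun x => c (z * x)) ∈ C) ∧
        r * Fintype.card (G i) ≤ finrank F C ∧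
        ∀ c ∈ C, c ≠ 0 → e * Fintype.card (G i) < hammingNorm c) ↔
      ∃ M : ℕ, ∀ i, Nat.card (Abelianization (G i)) ≤ M)) ∧
    ∀ k : ℕ, ∃ (G : Type) (_ : Group G) (_ : Fintype G), IsPGroup p G ∧ k ≤ Fintype.card G ∧
      (∃ A H : Subgroup G, A.Normal ∧ (∀ a ∈ A, ∀ b ∈ A, a * b = b * a) ∧ A ⊔ H = ⊤ ∧
        Nat.card H ≤ p) ∧
      Nat.card (Abelianization G) ≤ p ^ 2 := by
  constructor
  · intro s ι G _ _ hp hG
    rw [← Run7.h505.RV.family F p s ι G hp hG]
    simp only [Run7.h505.RT.wt_eq]
  · intro k
    obtain ⟨G, hG1, hG2, h1, h2, h3⟩ := Run7.h505.RV.examples_all p k
    refine ⟨G, hG1, hG2, h1, ?_, h3⟩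
    exact (Nat.lt_pow_self (Fact.out : p.Prime).one_lt).le.trans h2

end Run7.h505.Old.AbelianBySmallGroupCodes
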