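import Pool.Agent.Run7.h505.RT.W

/-!
# Group codes of `p`-groups in characteristic `p`

Let `F` be a finite field of characteristic `p`.  A left ideal is a linear space `C` of functions on
a finite group `G` such that `c ∈ C` implies that `x ↦ c (z x)` is in `C` for every `z`.

* Finite `p`-groups with large abelianization are bad: left ideals of rate at least `r` contain
  nonzero words of relative weight less than `e`.
* Finite `p`-groups with bounded abelianization and with a subgroup of bounded index that is abelian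
  and generated by two elements are good: they have left ideals with rate and relative minimum
  distance bounded below.
* Asymptotically good left ideals exist within the class of finite `p`-groups with a subgroup of
  bounded index that is abelian and generated by two elements if and only if `p ≤ 3`.
-/

open Module

namespace Run7.h505.Old.RankTwoGroupCodes

theorem result (F : Type) [Field F] [Fintype F] [DecidableEq F] (_hq : 2 < Fintype.card F)
    (p : ℕ) [Fact p.Prime] [CharP F p] :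
    (∀ r e : ℝ, 0 < r → 0 < e → ∃ N : ℕ, ∀ (G : Type) [Group G] [Fintype G],
      IsPGroup p G → N ≤ Nat.card (Abelianization G) →
      ∀ C : Submodule F (G → F), (∀ c ∈ C, ∀ z : G, (fun x => c (z * x)) ∈ C) →
        r * Fintype.card G ≤ finrank F C →
        ∃ c ∈ C, c ≠ 0 ∧ (hammingNorm c : ℝ) < e * Fintype.card G) ∧
    (∀ m M : ℕ, ∃ r e : ℝ, 0 < r ∧ 0 < e ∧ ∀ (G : Type) [Group G] [Fintype G], IsPGroup p G →
      (∃ g h : G, Commute g h ∧ (Subgroup.closure {g, h}).index ≤ m) →
      Nat.card (Abelianization G) ≤ M →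
      ∃ C : Submodule F (G → F), (∀ c ∈ C, ∀ z : G, (fun x => c (z * x)) ∈ C) ∧
        r * Fintype.card G ≤ finrank F C ∧
        ∀ c ∈ C, c ≠ 0 → e * Fintype.card G < hammingNorm c) ∧
    ((∃ (m : ℕ) (r e : ℝ), 0 < r ∧ 0 < e ∧ ∀ n : ℕ, ∃ (G : Type) (_ : Group G) (_ : Fintype G),
      IsPGroup p G ∧ n ≤ Fintype.card G ∧
      (∃ g h : G, Commute g h ∧ (Subgroup.closure {g, h}).index ≤ m) ∧
      ∃ C : Submodule F (G → F), (∀ c ∈ C, ∀ z : G, (fun x => c (z * x)) ∈ C) ∧
        r * Fintype.card G ≤ finrank F C ∧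
        ∀ c ∈ C, c ≠ 0 → e * Fintype.card G < hammingNorm c) ↔ p ≤ 3) := by
  have hbad : ∀ r e : ℝ, 0 < r → 0 < e → ∃ N : ℕ, ∀ (G : Type) [Group G] [Fintype G],
      IsPGroup p G → N ≤ Nat.card (Abelianization G) →
      ∀ C : Submodule F (G → F), (∀ c ∈ C, ∀ z : G, (fun x => c (z * x)) ∈ C) →
        r * Fintype.card G ≤ finrank F C →
        ∃ c ∈ C, c ≠ 0 ∧ (hammingNorm c : ℝ) < e * Fintype.card G := by
    intro r e hr he
    obtain ⟨N, hN⟩ := Run7.h505.RT.bad F p r e hr he
    refine ⟨N, ?_⟩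
    intro G _ _ hG hab C hC hrC
    obtain ⟨c, hc, hc0, hcw⟩ := hN G hG hab C hC hrC
    exact ⟨c, hc, hc0, by rwa [Run7.h505.RT.wt_eq] at hcw⟩
  have hgood : ∀ m M : ℕ, ∃ r e : ℝ, 0 < r ∧ 0 < e ∧ ∀ (G : Type) [Group G] [Fintype G],
      IsPGroup p G → (∃ g h : G, Commute g h ∧ (Subgroup.closure {g, h}).index ≤ m) →
      Nat.card (Abelianization G) ≤ M →
      ∃ C : Submodule F (G → F), (∀ c ∈ C, ∀ z : G, (fun x => c (z * x)) ∈ C) ∧
        r * Fintype.card G ≤ finrank F C ∧
        ∀ c ∈ C, c ≠ 0 → e * Fintype.card G < hammingNorm c := by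
    intro m M
    obtain ⟨r, e, hr, he, h⟩ := Run7.h505.RT.good_class F p m M
    refine ⟨r, e, hr, he, ?_⟩
    intro G _ _ hG hgh hM
    obtain ⟨C, hC1, hC2, hC3⟩ := h G hG hgh hM
    refine ⟨C, hC1, hC2, fun c hc hc0 => ?_⟩
    have := hC3 c hc hc0
    rwa [Run7.h505.RT.wt_eq] at this
  refine ⟨hbad, hgood, ?_, ?_⟩
  · rintro ⟨m, r, e, hr, he, h⟩
    by_contra hp
    have hp4 : p ≠ 4 := by
      intro h4
      have := (Fact.out : p.Prime)
      rw [h4] at this
      norm_num at this
    have hp5 : 5 ≤ p := by omega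
    obtain ⟨N, hN⟩ := hbad r e hr he
    obtain ⟨K, hK⟩ := Run7.h505.RT.five p hp5 m N
    obtain ⟨G, _, _, hG, hcard, hgh, C, hC1, hC2, hC3⟩ := h (K + 1)
    rcases le_total N (Nat.card (Abelianization G)) with h1 | h1
    · obtain ⟨c, hc, hc0, hcw⟩ := hN G hG h1 C hC1 hC2
      exact absurd (hC3 c hc hc0) (not_lt.2 hcw.le)
    · have := hK G hG hgh h1
      omega
  · intro hp3
    obtain ⟨r, e, hr, he, h⟩ := hgood 3 27
    refine ⟨3, r, e, hr, he, ?_⟩
    intro n
    obtain ⟨G, iG, iF, hG, hcard, hgh, hab⟩ := Run7.h505.RT.examples p hp3 n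
    refine ⟨G, iG, iF, hG, ?_, hgh, h G hG hgh hab⟩
    have h2 : n < p ^ n := Nat.lt_pow_self (Fact.out : p.Prime).one_lt
    omega

end Run7.h505.Old.RankTwoGroupCodes
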