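import Pool.Agent.Run7.h505.TI.P

/-!
# MP_0430e4_lc: ideals of binary group algebras of 2-groups; the abelianization decides

A binary code of length `|G|` which is invariant under the regular action of a finite group `G` is
a left ideal of `F₂[G]`. We consider 2-groups.

(1) *Large abelianization is bad.* For every `ρ > 0` and `M` there is `N` such that for every
finite 2-group `G` with `|G / [G, G]| ≥ N` every left ideal `C` of rate at least `ρ` contains all
words that are constant on the cosets of some normal subgroup of index at least `M`. In particular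
`C` has a nonzero word of weight at most `|G| / M`.

(2) *Small abelianization is good*, for the groups with a cyclic subgroup of bounded index: if
`G` has a cyclic subgroup of index at most `m` and `|G / [G, G]| ≤ M` then there is a left ideal of
rate at least `1 / (m!³ M)` in which all nonzero words have weight greater than `|G| / 128`.

(3) The same for all 2-groups with `|G / [G, G]| ≤ 4` (rate at least `1/32`).

So a family of 2-groups with cyclic subgroups of bounded index has an asymptotically good family of
left ideals if and only if the orders of the abelianizations are bounded (or a subfamily has this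
property), and for all 2-groups the boundedness is necessary.

Proof. (1) `G` maps onto `(ℤ/2)^d` with `d` large or onto a large cyclic group `ℤ/2^k`, and the
rate does not decrease if we pass to the words which come from a quotient. In the first case we use
a theorem on translation-invariant codes on `F₂^d` (density increment), in the second case the fact
that the invariant codes of `ℤ/2^k` form a chain.

(2), (3) The main case is the dihedral group `D` of order `2^(k+1)`, where the rate `1/2` is
reached. Let `R = F₂[ℤ/2^k]` and let `g` be a random unit of `R`; the code is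
`{(a, c) : a g = c ḡ}`, which is the left ideal `F₂[D] (1 + s) g⁻¹`. For a fixed pair `(a, c)`
where `a` has period exactly `2^s` the proportion of the units `g` with `a g = c ḡ` is at most
`2^(2 - 2^(s-2))`, because `R` is a chain ring; and there are at most `2^(9 · 2^(s-6))` pairs of
period `2^s` and relative weight at most `1/128`.

In general `G` has a dihedral quotient of order at least `|G|` divided by a constant (this uses the
transfer), or `|G|` is bounded. A 2-group with `|G / [G, G]| ≤ 4` has a cyclic subgroup of index at
most two.
-/

namespace Pool.Agent.Results.MP_0430e4_lc.TwoGroupsDichotomy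

/-- The Hamming weight of a word with coordinates in `Y`. -/
def weight {Y : Type} [Fintype Y] (c : Y → ZMod 2) : ℕ := (Finset.univ.filter fun y => c y ≠ 0).card

/-- Codes of length `|G|` that are invariant under left translations (left ideals of `F₂[G]`). -/
def Invariant {G : Type} [Group G] (C : Submodule (ZMod 2) (G → ZMod 2)) : Prop :=
  ∀ c ∈ C, ∀ g : G, (fun x => c (g * x)) ∈ C

open Run7.h505.TI in
theorem result :
    -- (1) large abelianization
    (∀ (ρ : ℝ) (M : ℕ), 0 < ρ → ∃ N : ℕ, ∀ (G : Type) [Group G] [Fintype G],
      IsPGroup 2 G → N ≤ Nat.card (Abelianization G) →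
      ∀ C : Submodule (ZMod 2) (G → ZMod 2), Invariant C →
        ρ * Fintype.card G ≤ Module.finrank (ZMod 2) C →
        (∃ H : Subgroup G, H.Normal ∧ M ≤ H.index ∧
          ∀ c : G → ZMod 2, (∀ x, ∀ h ∈ H, c (x * h) = c x) → c ∈ C) ∧
        ∃ c ∈ C, c ≠ 0 ∧ weight c * M ≤ Fintype.card G) ∧
    -- (2) small abelianization and a cyclic subgroup of small index
    (∀ (m M : ℕ) (G : Type) [Group G] [Fintype G],
      IsPGroup 2 G → (∃ A : Subgroup G, IsCyclic A ∧ A.index ≤ m) →
      Nat.card (Abelianization G) ≤ M →
      ∃ C : Submodule (ZMod 2) (G → ZMod 2), Invariant C ∧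
        Fintype.card G ≤ m.factorial ^ 3 * M * Module.finrank (ZMod 2) C ∧
        ∀ c ∈ C, c ≠ 0 → Fintype.card G < 128 * weight c) ∧
    -- (3) abelianization of order at most four
    (∀ (G : Type) [Group G] [Fintype G], IsPGroup 2 G → Nat.card (Abelianization G) ≤ 4 →
      ∃ C : Submodule (ZMod 2) (G → ZMod 2), Invariant C ∧
        Fintype.card G ≤ 32 * Module.finrank (ZMod 2) C ∧
        ∀ c ∈ C, c ≠ 0 → Fintype.card G < 128 * weight c) := by
  classical
  refine ⟨?_, ?_, ?_⟩
  · intro ρ M hρ
    obtain ⟨N, hN⟩ := main_ab ρ hρ M
    refine ⟨N, ?_⟩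
    intro G _ _ hG hab C hC hr
    obtain ⟨A, _, _, ψ, hψ, hA, hall⟩ := hN G hG hab C hC (by rwa [Nat.card_eq_fintype_card])
    have hidx : M ≤ ψ.ker.index := by
      rw [Subgroup.index_ker, MonoidHom.range_eq_top.2 hψ,
        Nat.card_congr (Subgroup.topEquiv (G := A)).toEquiv, hA]
      exact Nat.lt_two_pow_self.le
    have hH : ∀ c : G → ZMod 2, (∀ x, ∀ h ∈ ψ.ker, c (x * h) = c x) → c ∈ C := by
      intro c hc
      choose s hs using hψ
      have h1 := hall fun a => c (s a)
      have h2 : (fun x => c (s (ψ x))) = c := by
        funext x
        have h3 : x⁻¹ * s (ψ x) ∈ ψ.ker := by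
          rw [MonoidHom.mem_ker, map_mul, map_inv, hs, inv_mul_cancel]
        have h4 := hc x _ h3
        rwa [mul_inv_cancel_left] at h4
      rwa [h2] at h1
    refine ⟨⟨ψ.ker, inferInstance, hidx, hH⟩, ?_⟩
    let c : G → ZMod 2 := fun x => if x ∈ ψ.ker then 1 else 0
    refine ⟨c, hH c ?_, ?_, ?_⟩
    · intro x h hh
      have : x * h ∈ ψ.ker ↔ x ∈ ψ.ker := Subgroup.mul_mem_cancel_right _ hh
      simp only [c, this]
    · intro h0
      have := congrFun h0 1
      simp [c] at this
    · have hw : weight c = Nat.card ψ.ker := by
        unfold weight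
        rw [Nat.card_eq_fintype_card, Fintype.card_subtype]
        congr 1
        ext x
        simp [c]
      rw [hw]
      calc Nat.card ψ.ker * M ≤ Nat.card ψ.ker * ψ.ker.index := Nat.mul_le_mul_left _ hidx
        _ = Nat.card G := Subgroup.card_mul_index _
        _ = Fintype.card G := Nat.card_eq_fintype_card
  · intro m M G _ _ hG hA hM
    obtain ⟨A, hA, hAm⟩ := hA
    exact good m M G hG A hA hAm hM
  · intro G _ _ hG hab
    obtain ⟨g, hg⟩ := cyclic_of_ab (Nat.card G) G hG rfl hab
    obtain ⟨C, h1, h2, h3⟩ := good 2 4 G hG (Subgroup.zpowers g) inferInstance hg hab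
    exact ⟨C, h1, by simpa using h2, h3⟩

end Pool.Agent.Results.MP_0430e4_lc.TwoGroupsDichotomy
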