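import Pool.Agent.Run7.h505.TI.P
import Pool.Agent.Run7.h505.RT.W

/-!
# MP_0430e4_lc: ideals of binary group algebras of 2-groups; the abelianization decides

A binary code of length `|G|` which is invariant under the regular action of a finite group `G` is
a left ideal of `F₂[G]`. We consider 2-groups.

(1) *Large abelianization is bad.* For every `ρ > 0` and `M` there is `N` such that for every
finite 2-group `G` with `|G / [G, G]| ≥ N` every left ideal `C` of rate at least `ρ` contains all
words that are constant on the cosets of some normal subgroup of index at least `M`. In particular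
`C` has a nonzero word of weight at most `|G| / M`.

(2) *Small abelianization is good*, for the groups with a subgroup of bounded index that is abelian
and generated by two elements: for all `m` and `M` there are `r, e > 0` such that every finite
2-group `G` with `|G / [G, G]| ≤ M` and with such a subgroup of index at most `m` has a left ideal
of dimension at least `r |G|` in which all nonzero words have weight greater than `e |G|`.

(3) If `G` has a cyclic subgroup of index at most `m` and `|G / [G, G]| ≤ M` then there is a left
ideal of rate at least `1 / (m!³ M)` in which all nonzero words have weight greater than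
`|G| / 128`.

(4) The same for all 2-groups with `|G / [G, G]| ≤ 4` (rate at least `1/32`).

So a family of 2-groups with abelian subgroups of bounded index that are generated by two elements
has an asymptotically good family of left ideals if and only if the orders of the abelianizations
are bounded (or a subfamily has this property), and for all 2-groups the boundedness is necessary.

Proof. (1) `G` maps onto `(ℤ/2)^d` with `d` large or onto a large cyclic group `ℤ/2^k`, and the
rate does not decrease if we pass to the words which come from a quotient. In the first case we use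
a theorem on translation-invariant codes on `F₂^d` (density increment), in the second case the fact
that the invariant codes of `ℤ/2^k` form a chain.

(2) Let `A` be the abelian subgroup. Some `t` in `G` of bounded order commutes with few elements of
`A` only; so few conjugates of `t` generate a subgroup of bounded index. The code consists of the
words `w` with `b w` fixed by `t`, where `b` is random. For a word `w` whose translates by elements
of `A` span a space of dimension `r`, the probability that `w` is a code word is exponentially small
in `r`. A word `w` of small weight satisfies monic recurrences at the scales `2^i` whose orders are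
bounded by the dimensions, and so it is determined by its values at `O(r)` suitable places, most of
which are zero for some translate. Hence there are at most `2^(ε r)` such words.

(3), (4) The main case is the dihedral group `D` of order `2^(k+1)`, where the rate `1/2` is
reached. In general `G` has a dihedral quotient of order at least `|G|` divided by a constant (this
uses the transfer), or `|G|` is bounded.
-/

namespace Run7.h505.Old.TwoGroupsRankTwo

/-- The Hamming weight of a word with coordinates in `Y`. -/
def weight {Y : Type} [Fintype Y] (c : Y → ZMod 2) : ℕ := (Finset.univ.filter fun y => c y ≠ 0).card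

/-- Codes of length `|G|` that are invariant under left translations (left ideals of `F₂[G]`). -/
def Invariant {G : Type} [Group G] (C : Submodule (ZMod 2) (G → ZMod 2)) : Prop :=
  ∀ c ∈ C, ∀ g : G, (fun x => c (g * x)) ∈ C

open Run7.h505.TI in
theorem result :
    -- (1) large abelianization
    (∀ (ρ : ℝ) (M : ℕ), 0 < ρ → ∃ N : ℕ, ∀ (G : Type) [Group G] [Fintype G],
      IsPGroup 2 G → N ≤ Nat.card (Abelianization G) →
      ∀ C : Submodule (ZMod 2) (G → ZMod 2), Invariant C →
        ρ * Fintype.card G ≤ Module.finrank (ZMod 2) C →
        (∃ H : Subgroup G, H.Normal ∧ M ≤ H.index ∧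
          ∀ c : G → ZMod 2, (∀ x, ∀ h ∈ H, c (x * h) = c x) → c ∈ C) ∧
        ∃ c ∈ C, c ≠ 0 ∧ weight c * M ≤ Fintype.card G) ∧
    -- (2) small abelianization and an abelian 2-generator subgroup of small index
    (∀ m M : ℕ, ∃ r e : ℝ, 0 < r ∧ 0 < e ∧ ∀ (G : Type) [Group G] [Fintype G],
      IsPGroup 2 G → (∃ g h : G, Commute g h ∧ (Subgroup.closure {g, h}).index ≤ m) →
      Nat.card (Abelianization G) ≤ M →
      ∃ C : Submodule (ZMod 2) (G → ZMod 2), Invariant C ∧
        r * Fintype.card G ≤ Module.finrank (ZMod 2) C ∧
        ∀ c ∈ C, c ≠ 0 → e * Fintype.card G < weight c) ∧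
    -- (3) small abelianization and a cyclic subgroup of small index
    (∀ (m M : ℕ) (G : Type) [Group G] [Fintype G],
      IsPGroup 2 G → (∃ A : Subgroup G, IsCyclic A ∧ A.index ≤ m) →
      Nat.card (Abelianization G) ≤ M →
      ∃ C : Submodule (ZMod 2) (G → ZMod 2), Invariant C ∧
        Fintype.card G ≤ m.factorial ^ 3 * M * Module.finrank (ZMod 2) C ∧
        ∀ c ∈ C, c ≠ 0 → Fintype.card G < 128 * weight c) ∧
    -- (4) abelianization of order at most four
    (∀ (G : Type) [Group G] [Fintype G], IsPGroup 2 G → Nat.card (Abelianization G) ≤ 4 →
      ∃ C : Submodule (ZMod 2) (G → ZMod 2), Invariant C ∧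
        Fintype.card G ≤ 32 * Module.finrank (ZMod 2) C ∧
        ∀ c ∈ C, c ≠ 0 → Fintype.card G < 128 * weight c) := by
  classical
  refine ⟨?_, ?_, ?_, ?_⟩
  · intro ρ M hρ
    obtain ⟨N, hN⟩ := main_ab ρ hρ M
    refine ⟨N, ?_⟩
    intro G _ _ hG hab C hC hr
    obtain ⟨A, _, _, ψ, hψ, hA, hall⟩ := hN G hG hab C hC (by rwa [Nat.card_eq_fintype_card])
    have hidx : M ≤ ψ.ker.index := by
      rw [Subgroup.index_ker, MonoidHom.range_eq_top.2 hψ,
        Nat.card_congr (Subgroup.topEquiv (G := A)).toEquiv, hA]
      exact Nat.lt_two_pow_self.le
    have hH : ∀ c : G → ZMod 2, (∀ x, ∀ h ∈ ψ.ker, c (x * h) = c x) → c ∈ C := by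
      intro c hc
      choose s hs using hψ
      have h1 := hall fun a => c (s a)
      have h2 : (fun x => c (s (ψ x))) = c := by
        funext x
        have h3 : x⁻¹ * s (ψ x) ∈ ψ.ker := by
          rw [MonoidHom.mem_ker, map_mul, map_inv, hs, inv_mul_cancel]
        have h4 := hc x _ h3
        rwa [mul_inv_cancel_left] at h4
      rwa [h2] at h1
    refine ⟨⟨ψ.ker, inferInstance, hidx, hH⟩, ?_⟩
    let c : G → ZMod 2 := fun x => if x ∈ ψ.ker then 1 else 0
    refine ⟨c, hH c ?_, ?_, ?_⟩
    · intro x h hh
      have : x * h ∈ ψ.ker ↔ x ∈ ψ.ker := Subgroup.mul_mem_cancel_right _ hh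
      simp only [c, this]
    · intro h0
      have := congrFun h0 1
      simp [c] at this
    · have hw : weight c = Nat.card ψ.ker := by
        unfold weight
        rw [Nat.card_eq_fintype_card, Fintype.card_subtype]
        congr 1
        ext x
        simp [c]
      rw [hw]
      calc Nat.card ψ.ker * M ≤ Nat.card ψ.ker * ψ.ker.index := Nat.mul_le_mul_left _ hidx
        _ = Nat.card G := Subgroup.card_mul_index _
        _ = Fintype.card G := Nat.card_eq_fintype_card
  · intro m M
    obtain ⟨r, e, hr, he, h⟩ := Run7.h505.RT.good_class (ZMod 2) 2 m M
    refine ⟨r, e, hr, he, ?_⟩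
    intro G _ _ hG hgh hM
    obtain ⟨C, hC1, hC2, hC3⟩ := h G hG hgh hM
    refine ⟨C, hC1, hC2, fun c hc hc0 => ?_⟩
    have h1 : Run7.h505.RT.wt c = weight c := by
      unfold Run7.h505.RT.wt weight
      congr!
    have := hC3 c hc hc0
    rwa [h1] at this
  · intro m M G _ _ hG hA hM
    obtain ⟨A, hA, hAm⟩ := hA
    exact good m M G hG A hA hAm hM
  · intro G _ _ hG hab
    obtain ⟨g, hg⟩ := cyclic_of_ab (Nat.card G) G hG rfl hab
    obtain ⟨C, h1, h2, h3⟩ := good 2 4 G hG (Subgroup.zpowers g) inferInstance hg hab
    exact ⟨C, h1, by simpa using h2, h3⟩

end Run7.h505.Old.TwoGroupsRankTwo
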